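import Pool.Agent.H63ne.Fin

set_option autoImplicit false

/-!
# MP_16db06_lc: the generic subshift with Hilbert cube alphabet need not be hyperfinite
-/

namespace Pool.Agent.Results.MP_16db06_lc.GenericNotHyperfinite

open Pool.Agent.H63ne

/-- There is a countable infinite (even finitely generated) group `Γ` for which the set of the
hyperfinite subshifts is not comeager in `Sh(Γ, I^ℕ)`; indeed the nonempty hyperfinite subshifts
form a meager set. -/
theorem result : ∃ (Γ : Type) (_ : Group Γ), Countable Γ ∧ Infinite Γ ∧ Group.FG Γ ∧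
    ¬ IsComeagerSh (ShHyp Γ) ∧ IsComeagerSh (ShNonempty Γ ∩ ShHyp Γ)ᶜ := by
  obtain ⟨k, ⟨A⟩⟩ := seqA
  exact ⟨Gam A, inferInstance, gam_countable A, gam_infinite A, gam_fg A, final A⟩

end Pool.Agent.Results.MP_16db06_lc.GenericNotHyperfinite
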